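import Pool.Agent.Y499.HC.Conf3
import Pool.Agent.Y502.HC.Frame
import Pool.Agent.Y888.HC.Det
import Pool.Agent.Y331.HC.Pos
import Pool.Agent.Y454.HC.Avge
import Pool.Agent.Y908.HC.Inv2

/-! # Filling area: conformal boundary collars

Let `0 < R ≤ π/2`. Consider a metric on the annulus `[0, R) × S^1` for which every curve joining two
antipodal points of the boundary circle `s = 0` has length at least `π`. If the metric is conformal
to the round metric `ds² + cos² s dθ²` of the collar of width `R` of the boundary of the hemisphere,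
then its area is at least `2 π sin R`, with equality only for the round metric; if it is only
`K`-quasiconformal to it, then its area is at least `2 π sin R / K`. -/

set_option autoImplicit false

open Real Set MeasureTheory Metric
open scoped ENNReal

namespace Pool.Agent.Results.MP_ecf18f_gt.ConformalCollar

open Pool.Agent.Y499.HC Pool.Agent.Y499.HR Pool.Agent.Y499.HK

theorem result (R : ℝ) (hR0 : 0 < R) (hR : R ≤ π / 2) (m : Met 1) (hS : NonShort R m) :
    (∀ φ : ℝ → EuclideanSpace ℝ (Fin (1 + 1)) → ℝ, Conformal R m φ →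
      ENNReal.ofReal (2 * π * Real.sin R) ≤ volM R m ∧
      (volM R m = ENNReal.ofReal (2 * π * Real.sin R) ↔ IsRound R m)) ∧
    (∀ Λ : ℝ → EuclideanSpace ℝ (Fin (1 + 1)) → ℝ, Dom R m Λ →
      (ENNReal.ofReal (2 * π * Real.sin R) ≤ ∫⁻ s in Ioo 0 R,
        ∫⁻ x : sphere (0 : EuclideanSpace ℝ (Fin (1 + 1))) 1,
          ENNReal.ofReal (Λ s x ^ 2 * Real.cos s) ∂(σ 1)) ∧
      ((∫⁻ s in Ioo 0 R, ∫⁻ x : sphere (0 : EuclideanSpace ℝ (Fin (1 + 1))) 1,
          ENNReal.ofReal (Λ s x ^ 2 * Real.cos s) ∂(σ 1)) =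
          ENNReal.ofReal (2 * π * Real.sin R) →
        ∀ s ∈ Ico 0 R, ∀ x ∈ sphere (0 : EuclideanSpace ℝ (Fin (1 + 1))) 1, Λ s x = 1) ∧
      ∀ K : ℝ, 0 ≤ K →
        (∀ s ∈ Ioo 0 R, ∀ x : sphere (0 : EuclideanSpace ℝ (Fin (1 + 1))) 1,
          Λ s x ^ 2 * Real.cos s ≤ K * √(detM m s x)) →
        ENNReal.ofReal (2 * π * Real.sin R) ≤ ENNReal.ofReal K * volM R m) := by
  have hF := Pool.Agent.Y502.HC.t_FRAME
  have hA := Pool.Agent.Y454.HC.t_AVGE
  have hI := Pool.Agent.Y908.HC.t_INV2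
  have hO := Pool.Agent.Y331.HC.t_POS
  have hD := Pool.Agent.Y888.HC.t_DET
  rw [← hemi_one hR0 hR]
  refine ⟨fun φ hφ => ⟨conf_ge hF hA hI hD le_rfl hR0 hR hS hφ,
    conf_eq hF hA hI hO hD le_rfl hR0 hR hS hφ⟩, fun Λ hΛ => ?_⟩
  have h1 := lam_ge hF hA hI le_rfl hR0 hR hS hΛ
  have h2 := lam_eq hF hA hI hO le_rfl hR0 hR hS hΛ
  have h3 := fun (K : ℝ) (hK : 0 ≤ K) => qc_ge hF hA hI le_rfl hR0 hR hS hΛ (K := K) hK
  simp only [pow_one, show (1 + 1 : ℕ) = 2 from rfl] at h1 h2 h3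
  exact ⟨h1, h2, h3⟩

end Pool.Agent.Results.MP_ecf18f_gt.ConformalCollar
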